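import Mathlib
import Pool.Agent.H20.TT.PTime
import Pool.Agent.H33.TT.Start2
import Pool.Agent.H49.TT.WinsF

/-!
# TRAIL TRAP is PSPACE-hard

We give a polynomial-time many-one reduction from TQBF (prenex formulas with strictly alternating
quantifiers and a matrix in conjunctive normal form with three literals in each clause) to
TRAIL TRAP. Polynomial time is meant in the model of `Pool.Agent.H7.Comp.Model`: while-programs
over binary trees with unit cost. All other definitions of the statement (the game, the formulas,
the coding of formulas and graphs by trees) are in `Pool.Agent.H20.TT.Defs`.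
-/

namespace Pool.Agent.Results.MP_1550cc_lc.PSPACEHard

open Pool.Agent.H7.Comp Pool.Agent.H20.TT

/-- **TRAIL TRAP is PSPACE-hard.** There is a program `r` which, given a quantified Boolean formula
`∃ v₀ ∀ v₁ ∃ v₂ … ∀ v₂ₙ₋₁ ⋀ L` (`L` a list of clauses with three literals each), computes in time
polynomial in `n + L.length` a finite simple graph `H` such that the formula is true if and only if
P1 has a winning strategy in Trail Trap on `H`. -/
theorem result :
    ∃ (r : Prog) (c : ℕ), ∀ (n : ℕ) (L : List (ℕ × ℕ × ℕ)), Wf n L →
      ∃ (N t : ℕ) (H : SimpleGraph (Fin N)),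
        Run r (formTree n L) (graphTree H) t ∧
        t ≤ (n + L.length + 2) ^ c ∧
        (QBF n L ↔ P1Wins H) :=
  reduction Pool.Agent.H33.TT.winsT Pool.Agent.H49.TT.winsF

end Pool.Agent.Results.MP_1550cc_lc.PSPACEHard
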